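import Pool.Agent.helper47.TFQ.Spec

set_option autoImplicit false

/-! # fq:QD9. The relation for general points -/

namespace Pool.Agent.TFQ

open Polynomial Pool.Agent.GJ Pool.Agent.TK
open Pool.Agent.FJ (VT Om chiO IsFrobO rf rs)
open Pool.Agent.TD (zK)

noncomputable section

lemma QD9_ne {K : Type} [Field K] {l n : ℕ} {μ : Fin (n + 1) → ℕ} {b : Fin (n + 1) → K}
    (hμ : ∀ j, 0 < μ j) (q : Pc K l μ b) (j : Fin (n + 1)) : q.1.1 - b j ≠ 0 := by
  intro h
  have h1 := q.2.1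
  have h2 : ∏ j, (q.1.1 - b j) ^ μ j = 0 := by
    apply Finset.prod_eq_zero (Finset.mem_univ j)
    rw [h, zero_pow (hμ j).ne']
  rw [h2] at h1
  exact (pow_ne_zero l q.2.2.ne_zero) h1

lemma QD9_prod {ι A M : Type*} [CommMonoid M] (f : A → M) (s : Finset ι) (F : ι → Multiset A) :
    ((∑ i ∈ s, F i).map f).prod = ∏ i ∈ s, ((F i).map f).prod := by
  classical
  induction s using Finset.induction_on with
  | empty => simp
  | insert i s hi ih =>
    rw [Finset.sum_insert hi, Finset.prod_insert hi, Multiset.map_add, Multiset.prod_add, ih]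

/-- existence of the `v_j` -/
lemma QD9_v (K : Type) [Field K] [IsAlgClosed K] (m0 l α n : ℕ) [Fact l.Prime]
    (μ : Fin (n + 1) → ℕ) (b : Fin (n + 1) → K) (hμ : ∀ j, 0 < μ j ∧ μ j < l)
    (hlα : l * α = m0) (hα : 0 < α) (q : Pc K l μ b) :
    ∃ v : Fin (n + 1) → K, (∀ j, v j ≠ 0 ∧ v j ^ (m0) = q.1.1 - b j) ∧
      ∏ j, v j ^ (μ j * α) = q.1.2 := by
  have hlp : l.Prime := Fact.out
  have hp1 : 0 < m0 := by rw [← hlα]; exact Nat.mul_pos hlp.pos hα
  have hw : ∀ j, ∃ w : K, w ^ (m0) = q.1.1 - b j := fun j =>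
    IsAlgClosed.exists_pow_nat_eq _ hp1
  choose w hw using hw
  have hw0 : ∀ j, w j ≠ 0 := by
    intro j h
    have := hw j
    rw [h, zero_pow hp1.ne'] at this
    exact QD9_ne (fun j => (hμ j).1) q j this.symm
  set W := ∏ j, w j ^ (μ j * α) with hW
  have hW0 : W ≠ 0 := Finset.prod_ne_zero_iff.mpr fun j _ => pow_ne_zero _ (hw0 j)
  have hWl : W ^ l = q.1.2 ^ l := by
    rw [q.2.1, hW, ← Finset.prod_pow]
    refine Finset.prod_congr rfl fun j _ => ?_
    rw [← hw j, ← pow_mul, ← pow_mul, ← hlα]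
    congr 1
    ring
  set ζ := q.1.2 / W with hζ
  have hζl : ζ ^ l = 1 := by
    rw [hζ, div_pow, hWl, div_self]
    exact pow_ne_zero _ q.2.2.ne_zero
  obtain ⟨r, hr⟩ := IsAlgClosed.exists_pow_nat_eq ζ hα
  have hcop : Nat.Coprime (μ 0) l := by
    rw [Nat.coprime_comm]
    exact (Nat.Prime.coprime_iff_not_dvd hlp).mpr fun h =>
      absurd (Nat.le_of_dvd (hμ 0).1 h) (not_le.mpr (hμ 0).2)
  obtain ⟨m, _, hm⟩ := Nat.exists_mul_mod_eq_one_of_coprime hcop hlp.one_lt
  set s := r ^ m with hs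
  have hs1 : s ^ (μ 0 * α) = ζ := by
    have h1 : s ^ (μ 0 * α) = ζ ^ (μ 0 * m) := by
      rw [hs, ← pow_mul, ← hr, ← pow_mul]
      congr 1
      ring
    rw [h1, ← Nat.div_add_mod (μ 0 * m) l, hm, pow_add, pow_mul, hζl, one_pow, one_mul, pow_one]
  have hs2 : s ^ (m0) = 1 := by
    rw [← hlα, hs, ← pow_mul]
    have : r ^ (m * (l * α)) = (ζ ^ l) ^ m := by
      rw [← hr, ← pow_mul, ← pow_mul]; congr 1; ring
    rw [this, hζl, one_pow]
  have hs0 : s ≠ 0 := by
    intro h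
    rw [h, zero_pow hp1.ne'] at hs2
    exact zero_ne_one hs2
  refine ⟨fun j => if j = 0 then s * w j else w j, fun j => ?_, ?_⟩
  · by_cases hj : j = 0
    · simp only [hj, if_true]
      exact ⟨mul_ne_zero hs0 (hw0 0), by rw [mul_pow, hs2, one_mul, hw]⟩
    · simp only [hj, if_false]
      exact ⟨hw0 j, hw j⟩
  · have h1 : ∀ j, (if j = 0 then s * w j else w j) ^ (μ j * α) =
        (if j = 0 then ζ else 1) * w j ^ (μ j * α) := by
      intro j
      by_cases hj : j = 0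
      · simp only [hj, if_true]
        rw [mul_pow, hs1]
      · simp only [hj, if_false]
        rw [one_mul]
    rw [Finset.prod_congr rfl fun j _ => h1 j, Finset.prod_mul_distrib,
      Finset.prod_ite_eq' Finset.univ (0 : Fin (n + 1)) (fun _ => ζ), if_pos (Finset.mem_univ _),
      ← hW, hζ, div_mul_cancel₀ _ hW0]

theorem QD9 (hKA5 : TK.KA5_stmt) (hKA6 : TK.KA6_stmt) (hKA7 : TK.KA7_stmt) (hQD5 : QD5_stmt) (hQD6 : QD6_stmt) (hQD7 : QD7_stmt) (hQD8 : QD8_stmt) (hQP1 : QP1_stmt) : QD9_stmt := by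
  intro F _ _ _ K _ _ p M l α n _ _ e hcq _ _ μ a _ _ q Q hl2 hlα hα hu hQ
  have hlp : l.Prime := Fact.out
  have hμ : ∀ j, 0 < μ j ∧ μ j < l := fun j =>
    ⟨Good.pos (K := K) (l := l) (μ := μ) (a := bQ e a) j,
      Good.lt (K := K) (l := l) (μ := μ) (a := bQ e a) j⟩
  have hinj : Function.Injective a := by
    intro i j h
    apply Good.inj (K := K) (l := l) (μ := μ) (a := bQ e a)
    show e (a i) = e (a j)
    rw [h]
  obtain ⟨v, hv, hvp⟩ := QD9_v K (cq F - 1) l α n μ (bQ e a) hμ hlα hα q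
  obtain ⟨Φ, hΦ⟩ := hQD5 F K e l α n μ a (fun j => e (lm a j) / v j) hlα hα hμ
  have hlm : lm a 0 ≠ 0 := by
    unfold lm
    apply inv_ne_zero
    rw [Finset.prod_ne_zero_iff]
    intro i hi
    rw [sub_ne_zero]
    exact fun h => (Finset.ne_of_mem_erase hi) (hinj h).symm
  have hΦ0 : Φ ≠ 0 := hQD7 F K e l α n μ a _ Φ hl2 hlα hα
    (div_ne_zero ((_root_.map_ne_zero _).mpr hlm) (hv 0).1) hΦ
  obtain ⟨hA1, hA2, hA3, hA4, hA5⟩ := hKA5 K l n μ (bQ e a)
  obtain ⟨S, hS⟩ := hA2 (Ideal.span {Φ}) (by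
    rw [Ne, Ideal.span_singleton_eq_bot]; exact hΦ0)
  have hmem := hQD8 F K p M l α n e hcq μ a q v Q Φ hl2 hlα hα hu hv hvp hΦ hQ
  have hle : dQQ e a Q ≤ S := by
    rw [← hA4, ← hS, Ideal.span_singleton_le_iff_mem]
    exact hmem
  have hcard : (dQQ e a Q).card = (cq F - 1) ^ n := by
    rw [← hQP1 F n a hinj, dQQ, Multiset.card_sum]
    refine Finset.sum_congr rfl fun k _ => ?_
    rw [Multiset.card_sum]
    simp
  obtain ⟨g, hg1, hg2⟩ := hQD6 F K e l α n μ a _ Φ hlα hα hΦ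
  obtain ⟨c, ee, N, hc, hN⟩ := hKA6 K l n μ (bQ e a) Φ S hΦ0 hS
  rw [hg2, ← map_mul] at hN
  have hN' := BR_inj K μ (bQ e a) hN
  set P : K[X] := (S.map fun q => X - C q.1.1).prod with hP
  have hPm : P.Monic := monic_multiset_prod_of_monic _ _ fun q _ => monic_X_sub_C _
  have hPd : P.natDegree = S.card := by
    rw [hP, natDegree_multiset_prod_of_monic]
    · rw [Multiset.map_map]
      simp
    · intro f hf
      obtain ⟨q, _, rfl⟩ := Multiset.mem_map.mp hf
      exact monic_X_sub_C _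
  have hcop : IsCoprime P (fp K μ (bQ e a) ^ N) := by
    apply IsCoprime.pow_right
    unfold fp
    apply IsCoprime.prod_right
    intro j _
    apply IsCoprime.pow_right
    rw [hP]
    have : ∀ S : Multiset (Pc K l μ (bQ e a)),
        IsCoprime (S.map fun q => X - C q.1.1).prod (X - C (bQ e a j)) := by
      intro S
      induction S using Multiset.induction_on with
      | empty =>
        rw [Multiset.map_zero, Multiset.prod_zero]
        exact isCoprime_one_left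
      | cons q S ih =>
        rw [Multiset.map_cons, Multiset.prod_cons]
        apply IsCoprime.mul_left _ ih
        apply isCoprime_X_sub_C_of_isUnit_sub
        exact IsUnit.mk0 _ (QD9_ne (fun j => (hμ j).1) q j)
    exact this S
  have hdvd : P ∣ g := by
    apply hcop.dvd_of_dvd_mul_right
    rw [hN']
    exact Dvd.intro_left _ rfl
  have hg0 : g ≠ 0 := by
    rintro rfl
    rw [zero_mul] at hN'
    have h1 : C c * ∏ j, (X - C (bQ e a j)) ^ ee j ≠ 0 := by
      apply mul_ne_zero (C_ne_zero.mpr hc)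
      exact Finset.prod_ne_zero_iff.mpr fun j _ => pow_ne_zero _ (X_sub_C_ne_zero _)
    exact (mul_ne_zero h1 hPm.ne_zero) hN'.symm
  have hcS : S.card ≤ (dQQ e a Q).card := by
    rw [hcard, ← hPd]
    exact (natDegree_le_of_dvd hdvd hg0).trans hg1
  have heq : dQQ e a Q = S := Multiset.eq_of_le_of_card_le hle hcS
  have h7 := ((hKA7 K l n μ (bQ e a)).2.2.1 (dQQ e a Q)).mpr ⟨Φ, by rw [heq, hS]⟩
  rw [← h7, dQQ, QD9_prod]
  refine Finset.prod_congr rfl fun k _ => ?_
  rw [QD9_prod]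
  refine Finset.prod_congr rfl fun c _ => ?_
  rw [Multiset.map_singleton, Multiset.prod_singleton]

end

end Pool.Agent.TFQ
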